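import Pool.Agent.Helper53.Comp.GoalsG

/-!
# Packet G2a: the recursion of divided differences
-/

namespace Mono

namespace Comp

open Finset

namespace G2a

/-- The sum over a box, one coordinate singled out. -/
theorem sum_piFinset_update {k : ℕ} (S : Fin k → Finset ℝ) (i : Fin k) (T : Finset ℝ)
    (f : (Fin k → ℝ) → ℝ) :
    ∑ x ∈ Fintype.piFinset (Function.update S i T), f x =
      ∑ z ∈ Fintype.piFinset (Function.update S i {0}), ∑ t ∈ T, f (Function.update z i t) := by
  rw [← Finset.sum_product']
  refine Finset.sum_bij' (fun x _ => (Function.update x i 0, x i))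
    (fun p _ => Function.update p.1 i p.2) ?_ ?_ ?_ ?_ ?_
  · intro x hx
    rw [Fintype.mem_piFinset] at hx
    rw [Finset.mem_product, Fintype.mem_piFinset]
    refine ⟨fun j => ?_, ?_⟩
    · by_cases hj : j = i
      · subst hj
        simp
      · have := hx j
        simp only [Function.update_of_ne hj] at this ⊢
        exact this
    · have := hx i
      simpa using this
  · intro p hp
    rw [Finset.mem_product, Fintype.mem_piFinset] at hp
    rw [Fintype.mem_piFinset]
    intro j
    by_cases hj : j = i
    · subst hj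
      simpa using hp.2
    · have := hp.1 j
      simp only [Function.update_of_ne hj] at this ⊢
      exact this
  · intro x _
    simp
  · intro p hp
    rw [Finset.mem_product, Fintype.mem_piFinset] at hp
    have h0 := hp.1 i
    simp only [Function.update_self, Finset.mem_singleton] at h0
    ext j
    · by_cases hj : j = i
      · subst hj
        simp [h0]
      · simp [Function.update_of_ne hj]
    · simp
  · intro x _
    simp

/-- The divided difference in one variable. -/
noncomputable def D1 (T : Finset ℝ) (g : ℝ → ℝ) : ℝ :=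
  ∑ t ∈ T, (∏ y ∈ T.erase t, 1 / (y - t)) * g t

theorem D1_rec (l : Finset ℝ) (x y : ℝ) (g : ℝ → ℝ) (hx : x ∉ l) (hy : y ∉ l) (hxy : x ≠ y) :
    (y - x) * D1 (insert x (insert y l)) g = D1 (insert x l) g - D1 (insert y l) g := by
  have hx' : x ∉ insert y l := by
    rw [Finset.mem_insert, not_or]
    exact ⟨hxy, hx⟩
  have hyx : y - x ≠ 0 := sub_ne_zero.2 hxy.symm
  have hxy' : x - y ≠ 0 := sub_ne_zero.2 hxy
  have e1 : (insert x (insert y l)).erase x = insert y l := Finset.erase_insert hx'
  have e2 : (insert x (insert y l)).erase y = insert x l := by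
    rw [Finset.erase_insert_of_ne hxy, Finset.erase_insert hy]
  have e3 : ∀ t ∈ l, (insert x (insert y l)).erase t = insert x (insert y (l.erase t)) := by
    intro t ht
    have h1 : x ≠ t := fun h => hx (h ▸ ht)
    have h2 : y ≠ t := fun h => hy (h ▸ ht)
    rw [Finset.erase_insert_of_ne h1, Finset.erase_insert_of_ne h2]
  have e4 : ∀ t ∈ l, (insert x l).erase t = insert x (l.erase t) := by
    intro t ht
    have h1 : x ≠ t := fun h => hx (h ▸ ht)
    rw [Finset.erase_insert_of_ne h1]
  have e5 : ∀ t ∈ l, (insert y l).erase t = insert y (l.erase t) := by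
    intro t ht
    have h1 : y ≠ t := fun h => hy (h ▸ ht)
    rw [Finset.erase_insert_of_ne h1]
  unfold D1
  rw [Finset.sum_insert hx', Finset.sum_insert hy, Finset.sum_insert hx, Finset.sum_insert hy,
    e1, e2, Finset.erase_insert hx, Finset.erase_insert hy, Finset.prod_insert hy,
    Finset.prod_insert hx]
  have s1 : (y - x) * ∑ t ∈ l, (∏ z ∈ (insert x (insert y l)).erase t, 1 / (z - t)) * g t =
      ∑ t ∈ l, (∏ z ∈ (insert x l).erase t, 1 / (z - t)) * g t -
        ∑ t ∈ l, (∏ z ∈ (insert y l).erase t, 1 / (z - t)) * g t := by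
    rw [Finset.mul_sum, ← Finset.sum_sub_distrib]
    refine Finset.sum_congr rfl fun t ht => ?_
    have h1 : x ≠ t := fun h => hx (h ▸ ht)
    have h2 : y ≠ t := fun h => hy (h ▸ ht)
    have hx1 : x ∉ l.erase t := fun h => hx (Finset.mem_of_mem_erase h)
    have hy1 : y ∉ l.erase t := fun h => hy (Finset.mem_of_mem_erase h)
    have hx2 : x ∉ insert y (l.erase t) := by
      rw [Finset.mem_insert, not_or]
      exact ⟨hxy, hx1⟩
    rw [e3 t ht, e4 t ht, e5 t ht, Finset.prod_insert hx2, Finset.prod_insert hy1,
      Finset.prod_insert hx1]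
    have a1 : x - t ≠ 0 := sub_ne_zero.2 h1
    have a2 : y - t ≠ 0 := sub_ne_zero.2 h2
    field_simp
    ring
  rw [mul_add, mul_add, s1]
  have t1 : (y - x) * (1 / (y - x) * ∏ z ∈ l, 1 / (z - x)) = ∏ z ∈ l, 1 / (z - x) := by
    field_simp
  have t2 : (y - x) * (1 / (x - y) * ∏ z ∈ l, 1 / (z - y)) = - ∏ z ∈ l, 1 / (z - y) := by
    have : y - x = -(x - y) := by ring
    rw [this]
    field_simp
  have u1 : (y - x) * ((1 / (y - x) * ∏ z ∈ l, 1 / (z - x)) * g x) =
      (∏ z ∈ l, 1 / (z - x)) * g x := by
    rw [← mul_assoc, t1]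
  have u2 : (y - x) * ((1 / (x - y) * ∏ z ∈ l, 1 / (z - y)) * g y) =
      -((∏ z ∈ l, 1 / (z - y)) * g y) := by
    rw [← mul_assoc, t2, neg_mul]
  rw [u1, u2]
  ring

/-- The divided difference, one coordinate singled out. -/
theorem DDS_update {k : ℕ} (S : Fin k → Finset ℝ) (i : Fin k) (T : Finset ℝ)
    (h : (Fin k → ℝ) → ℝ) :
    DDS (Function.update S i T) h =
      ∑ z ∈ Fintype.piFinset (Function.update S i {0}),
        (∏ j ∈ univ.erase i, ∏ y ∈ (S j).erase (z j), 1 / (y - z j)) *
          D1 T (fun t => h (Function.update z i t)) := by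
  unfold DDS
  rw [sum_piFinset_update]
  refine Finset.sum_congr rfl fun z _ => ?_
  unfold D1
  rw [Finset.mul_sum]
  refine Finset.sum_congr rfl fun t _ => ?_
  rw [← mul_assoc]
  refine congrArg (fun r => r * h (Function.update z i t)) ?_
  rw [← Finset.mul_prod_erase univ _ (Finset.mem_univ i), mul_comm]
  simp only [Function.update_self]
  refine congrArg₂ (fun a b => a * b) ?_ rfl
  refine Finset.prod_congr rfl fun j hj => ?_
  have hj' : j ≠ i := Finset.ne_of_mem_erase hj
  rw [Function.update_of_ne hj', Function.update_of_ne hj']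

end G2a

theorem ddsRec : DDSRec := by
  intro k S i l x y h hx hy hxy
  rw [G2a.DDS_update, G2a.DDS_update, G2a.DDS_update, Finset.mul_sum, ← Finset.sum_sub_distrib]
  refine Finset.sum_congr rfl fun z _ => ?_
  have := G2a.D1_rec l x y (fun t => h (Function.update z i t)) hx hy hxy
  rw [← mul_assoc, mul_comm (y - x), mul_assoc, this]
  ring

end Comp

end Mono
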